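import Pool.Agent.RSA55.Near

set_option autoImplicit false

/-!
# MP_c44c3f_co: the constant `c` in the problem may be any number below `1/5`, and the
# matchings need to be induced only up to linearly many edges of the later matchings
-/

namespace Pool.Agent.Results.MP_c44c3f_co.DensityAmplification

open Pool.Agent.RSA55

/-- From `t` pairwise disjoint matchings of size at least `c n` on `n` vertices, the ends of each of
which span at most `C n` edges of the later ones, one gets for every `c' < 1/5` and every
`N ≥ K n ^ k` an `(r',t)`-Ruzsa–Szemerédi graph on `N` vertices with `r' ≥ c' N`, with the same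
number `t` of matchings; `k` and `K` depend on `c`, `C` and `c'` only. -/
theorem result (c C : ℝ) (hc : 0 < c) (c' : ℝ) (hc' : c' < 1 / 5) :
    ∃ k K : ℕ, ∀ (n t : ℕ) (M : Fin t → Finset (Sym2 (Fin n))), 1 ≤ n →
      (∀ i, IsMatchingSet (M i)) → (∀ i j, i ≠ j → Disjoint (M i) (M j)) →
      (∀ i, c * n ≤ (M i).card) → (∀ i, (laterEdges M i : ℝ) ≤ C * n) →
      ∀ N : ℕ, K * n ^ k ≤ N →
        ∃ (G' : SimpleGraph (Fin N)) (r' : ℕ), c' * N ≤ r' ∧ IsRS G' r' t :=
  amplifyN c C hc c' hc'

end Pool.Agent.Results.MP_c44c3f_co.DensityAmplification
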