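import Pool.Agent.H22.RSG.Main

set_option autoImplicit false

namespace Pool.Agent.Results.MP_c44c3f_co.IteratedLogBound

open Pool.Agent.H22.RSG

/-- For every `L : ℕ` and every real `c > 2 ^ (-(L + 2))` there are `C` and `n₀` such that for all
`n ≥ n₀` the `L`-fold iterated logarithm of `n` is positive, and whenever the edge set of a graph
`G` on `n` vertices is the disjoint union of `t` induced matchings `M i` of average size at least
`c n` (for instance when `G` is an `(r,t)`-Ruzsa–Szemerédi graph with `r ≥ c n`), one has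
`t ≤ C n / log^[L] n`. -/
theorem result : ∀ (L : ℕ) (c : ℝ), 1 / 2 ^ (L + 2) < c →
    ∃ C : ℝ, ∃ n₀ : ℕ, ∀ n : ℕ, n₀ ≤ n → 0 < Real.log^[L] (n : ℝ) ∧
      ∀ (t : ℕ) (G : SimpleGraph (Fin n)) (M : Fin t → Finset (Sym2 (Fin n))),
        IsInducedUnion G M → c * n * t ≤ ∑ i, ((M i).card : ℝ) →
        (t : ℝ) ≤ C * (n / Real.log^[L] (n : ℝ)) :=
  fun L _ hc => rs_bound L hc

end Pool.Agent.Results.MP_c44c3f_co.IteratedLogBound
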