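import Pool.Agent.H22.TRS.Graph

set_option autoImplicit false

namespace Pool.Agent.Results.MP_c44c3f_co.TranslationBound

open Pool.Agent.H22.TRS

/-- For all `j`, `m`, `q` with `q ≥ 1` and every real `c > q m / (2 ((j + 2) m + 1))` there is `C` such that:
if `Γ` is a finite group, `S ⊆ Γ`, `G` is the bipartite Cayley graph `haar S` with `n = 2 |Γ|` vertices, and
`M 0, …, M (t - 1)` are pairwise disjoint induced matchings of `G` with at least `c n` edges each, every one
of them with edges in at most `q` directions, then `t ≤ C n ^ (1 - (m / (m + 1)) / 2 ^ j)`. -/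
theorem result : ∀ (j m q : ℕ), 1 ≤ q → ∀ c : ℝ, (q : ℝ) * m / (2 * ((j + 2) * m + 1)) < c →
    ∃ C : ℝ, ∀ (Γ : Type) [Group Γ] [Fintype Γ] (S : Finset Γ) (t : ℕ)
      (M : Fin t → Finset (Sym2 (Γ ⊕ Γ))) (D : Fin t → Finset Γ),
      (∀ i, IsInducedMatching (haar S) (M i)) → (∀ i k, i ≠ k → Disjoint (M i) (M k)) →
      (∀ i, c * (2 * Fintype.card Γ) ≤ (M i).card) →
      (∀ i, (D i).card ≤ q ∧ UsesDirections (M i) (D i)) →
      (t : ℝ) ≤ C * (2 * Fintype.card Γ : ℝ) ^ (1 - ((m : ℝ) / (m + 1)) / 2 ^ j) :=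
  fun j m q hq c hc => translation_bound j m q hq c hc

end Pool.Agent.Results.MP_c44c3f_co.TranslationBound
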